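import Pool.Agent.W662.SK.StmtsB

/-! SK-B12: isomorphisms preserve the ideal. -/

set_option autoImplicit false

open scoped InnerProductSpace ENNReal
open Filter Topology

namespace Pool.Agent.W196.SK

open Pool.Agent.W662.SK

theorem b12 (h1 : S_B1) (h5 : S_B5) (h10 : S_B10) (h11 : S_B11) (h12 : S_B12a) : S_B12 := by
  intro Γ K _ _ _ _ π π' f hf hs hs' A B hA hB θ x hx
  haveI : Nontrivial K := ⟨f 0, 0, hf.ne_zero 0⟩
  have hAc : IsClosed (A : Set (L2 Γ K →L[ℂ] L2 Γ K)) := by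
    have hA' : (A : Set (L2 Γ K →L[ℂ] L2 Γ K)) = Aset π := hA
    rw [hA']; exact h5 Γ K π hs
  have hBc : IsClosed (B : Set (L2 Γ K →L[ℂ] L2 Γ K)) := by
    have hB' : (B : Set (L2 Γ K →L[ℂ] L2 Γ K)) = Aset π' := hB
    rw [hB']; exact h5 Γ K π' hs'
  obtain ⟨τ', ht1, ht2, ht3⟩ := h10 Γ K π' hs' B hB
  let τ : A →ₗ[ℂ] ℂ :=
    { toFun := fun a => τ' (θ a)
      map_add' := fun a b => by rw [map_add, map_add]
      map_smul' := fun c a => by rw [map_smul, map_smul, RingHom.id_apply] }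
  have key : ∀ y : A, (y : L2 Γ K →L[ℂ] L2 Γ K) ∈ Jd Γ K → τ' (θ y) = 0 :=
    h11 Γ K π f hf A hA τ
      (fun y => (ht1 (θ y)).trans (h12 (L2 Γ K) A B hAc hBc θ y).le)
      (fun y z => by
        change τ' (θ (y * z)) = τ' (θ (z * y))
        have e1 : θ (y * z) = θ y * θ z := map_mul θ y z
        have e2 : θ (z * y) = θ z * θ y := map_mul θ z y
        rw [e1, e2, ht2])
  have hx2 : ((star x * x : A) : L2 Γ K →L[ℂ] L2 Γ K) ∈ Jd Γ K :=
    (h1 Γ K).1 _ ((h1 Γ K).2.1 _ hx) _ hx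
  have h := key (star x * x) hx2
  have e3 : θ (star x * x) = star (θ x) * θ x := by
    rw [map_mul θ, map_star θ]
  rw [e3] at h
  exact ht3 (θ x) h

end Pool.Agent.W196.SK
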